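import Mathlib

namespace Pool.Agent.Results.MP_3155f9_ag.AllEquiv

open MvPowerSeries

/-- The pair `f_{a,b} = (x³ + y⁵ + a y⁶ + b y⁸, x² y + x y²)` in `F[[x, y]]`. -/
noncomputable def fam {F : Type*} [Field F] (a b : F) : Fin 2 → MvPowerSeries (Fin 2) F :=
  ![X 0 ^ 3 + X 1 ^ 5 + C a * X 1 ^ 6 + C b * X 1 ^ 8, X 0 ^ 2 * X 1 + X 0 * X 1 ^ 2]

/-- Contact equivalence: `g = U · φ(f)` with `U ∈ GL(2, R)` and `φ ∈ Aut(R)`. -/
def Contact {F : Type*} [Field F] (f g : Fin 2 → MvPowerSeries (Fin 2) F) : Prop :=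
  ∃ (φ : MvPowerSeries (Fin 2) F ≃ₐ[F] MvPowerSeries (Fin 2) F)
    (U : Matrix (Fin 2) (Fin 2) (MvPowerSeries (Fin 2) F)),
    IsUnit U ∧ g = U.mulVec fun i => φ (f i)

theorem core {R : Type*} [CommRing R] (h2 : (2 : R) = 0) (x y a b c d v u₁ u₂ : R)
    (hv : v * (1 + (a + c) * y) = 1) (h₁ : u₁ * (1 + y ^ 2 + c * y ^ 3 + d * y ^ 5) = 1)
    (h₂ : u₂ * (1 + c * y + d * y ^ 3) = 1) :
    ∃ r s : R, x ^ 3 + (y * (1 + (a + c) * x) * v) ^ 5 + a * (y * (1 + (a + c) * x) * v) ^ 6 +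
      b * (y * (1 + (a + c) * x) * v) ^ 8 =
      (1 + r * y) * (x ^ 3 + y ^ 5 + c * y ^ 6 + d * y ^ 8) + s * (x ^ 2 * y + x * y ^ 2) := by
  set e := a + c with he
  set N := Ideal.span {y * (x ^ 3 + y ^ 5 + c * y ^ 6 + d * y ^ 8), x ^ 2 * y + x * y ^ 2}
  have m1 : x * y ^ 4 ∈ N := Ideal.mem_span_pair.2
    ⟨u₁ * x, -u₁ * (x ^ 2 + x * y + y ^ 2), by
      linear_combination (x * y ^ 4) * h₁ - (u₁ * y * x * y * (x ^ 2 + x * y + y ^ 2)) * h2⟩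
  have m2 : y ^ 7 ∈ N := by
    have : y ^ 7 + u₂ * (x * y ^ 4) ∈ N := Ideal.mem_span_pair.2
      ⟨u₂ * y, -u₂ * y * (x - y), by linear_combination (y ^ 7) * h₂⟩
    simpa using N.sub_mem this (N.mul_mem_left u₂ m1)
  have hk : (1 + e * x) * v = (1 - e * y + y ^ 2 * (e ^ 2 * v)) + x * (e * v) := by
    linear_combination (1 - e * y) * hv
  obtain ⟨p, hp⟩ : x ∣ ((1 + e * x) * v) ^ 5 - (1 - e * y + y ^ 2 * (e ^ 2 * v)) ^ 5 :=
    Dvd.dvd.trans ⟨e * v, by rw [hk]; ring⟩ (sub_dvd_pow_sub_pow _ _ 5)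
  obtain ⟨q, hq⟩ : y ^ 2 ∣ (1 - e * y + y ^ 2 * (e ^ 2 * v)) ^ 5 - (1 - e * y) ^ 5 :=
    Dvd.dvd.trans ⟨e ^ 2 * v, by ring⟩ (sub_dvd_pow_sub_pow _ _ 5)
  obtain ⟨p', hp'⟩ : x ∣ ((1 + e * x) * v) ^ 6 - (1 - e * y + y ^ 2 * (e ^ 2 * v)) ^ 6 :=
    Dvd.dvd.trans ⟨e * v, by rw [hk]; ring⟩ (sub_dvd_pow_sub_pow _ _ 6)
  obtain ⟨q', hq'⟩ : y ∣ (1 - e * y + y ^ 2 * (e ^ 2 * v)) ^ 6 - 1 ^ 6 :=
    Dvd.dvd.trans ⟨-e + y * (e ^ 2 * v), by ring⟩ (sub_dvd_pow_sub_pow _ _ 6)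
  have m3 := N.add_mem (N.mul_mem_left (y * p + a * y ^ 2 * p') m1)
    (N.mul_mem_left (q + a * q' + b * y * ((1 + e * x) * v) ^ 8 - d * y +
      (10 * e ^ 2 - 10 * e ^ 3 * y + 5 * e ^ 4 * y ^ 2 - e ^ 5 * y ^ 3)) m2)
  obtain ⟨r, s, hrs⟩ := Ideal.mem_span_pair.1 m3
  refine ⟨r, s, ?_⟩
  linear_combination y ^ 5 * hp + y ^ 5 * hq + a * y ^ 6 * hp' + a * y ^ 6 * hq' - hrs -
    (y ^ 6 * (2 * a + 3 * c)) * h2 - 5 * y ^ 6 * he

variable {F : Type*} [Field F]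

theorem unit_of (f : MvPowerSeries (Fin 2) F) (h : constantCoeff f = 1) : ∃ u, u * f = 1 :=
  (isUnit_iff_constantCoeff.2 (h ▸ isUnit_one)).exists_left_inv

theorem hs (k : MvPowerSeries (Fin 2) F) : HasSubst ![X 0, X 1 * k] :=
  hasSubst_of_constantCoeff_zero fun i => by fin_cases i <;> simp

noncomputable def sb (k : MvPowerSeries (Fin 2) F) :
    MvPowerSeries (Fin 2) F →ₐ[F] MvPowerSeries (Fin 2) F := substAlgHom (hs k)

theorem sb0 (k : MvPowerSeries (Fin 2) F) : sb k (X 0) = X 0 := substAlgHom_X _ _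

theorem sb1 (k : MvPowerSeries (Fin 2) F) : sb k (X 1) = X 1 * k := substAlgHom_X _ _

theorem sbC (k : MvPowerSeries (Fin 2) F) (a : F) : sb k (C a) = C a := (sb k).commutes a

theorem sb_comp (k l : MvPowerSeries (Fin 2) F) (h : k * sb k l = 1) :
    (sb k).comp (sb l) = AlgHom.id F _ := by
  refine AlgHom.ext fun f => ?_
  have e : (fun s => subst ![X 0, X 1 * k] (![X 0, X 1 * l] s)) =
      (X : Fin 2 → MvPowerSeries (Fin 2) F) := by
    funext s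
    rw [← substAlgHom_apply (hs k)]
    fin_cases s
    · exact sb0 k
    · change sb k (X 1 * l) = X 1
      rw [map_mul, sb1, mul_assoc, h, mul_one]
  simp only [sb, AlgHom.comp_apply, substAlgHom_apply, AlgHom.id_apply]
  rw [subst_comp_subst_apply (hs l) (hs k), e, subst_self, id]

/-- In characteristic two all members of the family are contact equivalent. -/
theorem result {F : Type*} [Field F] [CharP F 2] (a b c d : F) : Contact (fam a b) (fam c d) := by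
  have h2 : (2 : MvPowerSeries (Fin 2) F) = 0 := by
    rw [← map_ofNat (C (σ := Fin 2) (R := F)) 2,
      show (OfNat.ofNat 2 : F) = 0 from CharTwo.two_eq_zero, map_zero]
  obtain ⟨v, hv⟩ := unit_of (1 + (C a + C c) * X 1 : MvPowerSeries (Fin 2) F) (by simp)
  obtain ⟨w, hw⟩ := unit_of (1 + (C a + C c) * X 0 + (C a + C c) * X 1 : MvPowerSeries (Fin 2) F)
    (by simp)
  obtain ⟨t, ht⟩ := unit_of (1 + (C a + C c) * X 0 : MvPowerSeries (Fin 2) F) (by simp)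
  obtain ⟨u₁, h₁⟩ := unit_of (1 + X 1 ^ 2 + C c * X 1 ^ 3 + C d * X 1 ^ 5 :
    MvPowerSeries (Fin 2) F) (by simp)
  obtain ⟨u₂, h₂⟩ := unit_of (1 + C c * X 1 + C d * X 1 ^ 3 : MvPowerSeries (Fin 2) F) (by simp)
  obtain ⟨r, s, hrs⟩ := core h2 (X 0) (X 1) (C a) (C b) (C c) (C d) v u₁ u₂ hv h₁ h₂
  obtain ⟨z, hz⟩ := unit_of (1 + r * X 1) (by simp)
  set e : MvPowerSeries (Fin 2) F := C a + C c with he
  have c1 : ((1 + e * X 0) * v) * sb ((1 + e * X 0) * v) w = 1 := by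
    have := congrArg (sb ((1 + e * X 0) * v)) hw
    simp only [he, map_mul, map_add, map_one, sb0, sb1, sbC] at this
    rw [← he] at this
    set W := sb ((1 + e * X 0) * v) w
    linear_combination this + (W * (1 + e * X 0)) * hv - (W * (1 + e * X 0) * v * e * X 1) * h2
  have c2 : w * sb w ((1 + e * X 0) * v) = 1 := by
    have := congrArg (sb w) hv
    simp only [he, map_mul, map_add, map_one, sb0, sb1, sbC] at this ⊢
    rw [← he] at this ⊢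
    set V := sb w v
    linear_combination this + V * hw - (V * w * e * X 1) * h2
  refine ⟨AlgEquiv.ofAlgHom _ _ (sb_comp _ _ c1) (sb_comp _ _ c2),
    !![z, -z * s * (t * (1 + e * X 1) ^ 2); 0, t * (1 + e * X 1) ^ 2], ?_, ?_⟩
  · rw [Matrix.isUnit_iff_isUnit_det, Matrix.det_fin_two_of]
    refine IsUnit.of_mul_eq_one ((1 + r * X 1) * ((1 + e * X 0) * v ^ 2)) ?_
    linear_combination (t * (1 + e * X 0) * (v * (1 + e * X 1)) ^ 2) * hz +
      (v * (1 + e * X 1)) ^ 2 * ht + (v * (1 + e * X 1) + 1) * hv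
  · have k2 : t * (1 + e * X 1) ^ 2 * (X 0 ^ 2 * (X 1 * ((1 + e * X 0) * v)) +
        X 0 * (X 1 * ((1 + e * X 0) * v)) ^ 2) = X 0 ^ 2 * X 1 + X 0 * X 1 ^ 2 := by
      linear_combination (X 0 * X 1 * (v * (1 + e * X 1)) * (X 0 * (1 + e * X 1) +
        X 1 * (1 + e * X 0) * (v * (1 + e * X 1)))) * ht +
        (X 0 ^ 2 * X 1 * (1 + e * X 1) + X 0 * X 1 ^ 2 * (1 + e * X 0) *
          (v * (1 + e * X 1) + 1)) * hv + (e * X 0 ^ 2 * X 1 ^ 2) * h2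
    funext i
    fin_cases i
    · simp only [fam, Matrix.mulVec, dotProduct, Fin.sum_univ_two, AlgEquiv.ofAlgHom_apply]
      simp [sb0, sb1, sbC]
      linear_combination -z * hrs + z * s * k2 -
        (X 0 ^ 3 + X 1 ^ 5 + C c * X 1 ^ 6 + C d * X 1 ^ 8) * hz
    · simp only [fam, Matrix.mulVec, dotProduct, Fin.sum_univ_two, AlgEquiv.ofAlgHom_apply]
      simp [sb0, sb1]
      linear_combination -k2

end Pool.Agent.Results.MP_3155f9_ag.AllEquiv
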